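import Pool.Agent.Results.MP_8d6ead_lc.AEUndecidable
import Pool.Agent.Y669.TA.WPU

/-! Quasi-identities with fixed premises in the lattices `L*(V)`. Stronger form of
`AEUndecidable`. -/

set_option autoImplicit false

namespace Pool.Agent.Results.MP_8d6ead_lc.FixedPremises

open Pool.Agent.Results.MP_8d6ead_lc.AEUndecidable

universe u v

/-- The universal sentence `∀ x_0 … x_{m-1}`: if all the equations in `P` hold then `t = s`. -/
def quasi {m : ℕ} (P : List (LTm m × LTm m)) (t s : LTm m) : AESentence :=
  ⟨m, 0, .or (.not (conjEq P)) (.eq t s)⟩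

/-- The sentence `σ` holds in `L*(V)` for every computable vector space `V` of infinite dimension
with a dependence algorithm over a computable field `F`. -/
def HoldsInAll (σ : AESentence) : Prop :=
  ∀ (F : Type u) (V : Type v) [Field F] [Primcodable F] [AddCommGroup V] [Module F V]
    [Primcodable V] [ComputableSpace F V], σ.Holds (LStar F V)

/-- The sentence `σ` fails in `L*(V)` for all such `F` and `V`. -/
def FailsInAll (σ : AESentence) : Prop :=
  ∀ (F : Type u) (V : Type v) [Field F] [Primcodable F] [AddCommGroup V] [Module F V]
    [Primcodable V] [ComputableSpace F V], ¬ σ.Holds (LStar F V)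

/-- There are one finite list `P` of equations between lattice terms in the variables
`x_0, …, x_{m-1}` and one term `s` such that, for the quasi-identities `q_t = (P implies t = s)`:
(1) for every recursively enumerable set `W` there is a function `t` from the natural numbers to
terms with computable Goedel numbers such that, for every computable field `F` and every
infinite-dimensional computable vector space `V` over `F` with a dependence algorithm, `q_{t n}` holds
in `L*(V)` if and only if `n` is in `W`;
(2) no algorithm gives the answer `true` for all terms `t` for which `q_t` holds in all the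
lattices `L*(V)` and the answer `false` for all `t` for which `q_t` fails in all of them;
(3) for each such `V` the set of the terms `t` for which `q_t` fails in `L*(V)` is not recursively
enumerable.
In particular (4): the `∀∃` theory of `L*(V)` and its universal part are undecidable (the Goedel
numbering being injective). -/
theorem result :
    (∃ (m : ℕ) (P : List (LTm m × LTm m)) (s : LTm m),
      (∀ W : ℕ → Prop, REPred W → ∃ t : ℕ → LTm m, (Computable fun n => (t n).code) ∧
        ∀ (F : Type u) (V : Type v) [Field F] [Primcodable F] [AddCommGroup V] [Module F V]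
          [Primcodable V] [ComputableSpace F V] (n : ℕ),
          (quasi P (t n) s).Holds (LStar F V) ↔ W n) ∧
      (¬ ∃ D : ℕ → Bool, Computable D ∧ ∀ t : LTm m,
        (HoldsInAll.{u, v} (quasi P t s) → D t.code = true) ∧
        (FailsInAll.{u, v} (quasi P t s) → D t.code = false)) ∧
      ∀ (F : Type u) (V : Type v) [Field F] [Primcodable F] [AddCommGroup V] [Module F V]
        [Primcodable V] [ComputableSpace F V],
        ¬ ∃ E : ℕ → Prop, REPred E ∧
          ∀ t : LTm m, E t.code ↔ ¬ (quasi P t s).Holds (LStar F V)) ∧
    Function.Injective AESentence.code ∧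
    ∀ (F : Type u) (V : Type v) [Field F] [Primcodable F] [AddCommGroup V] [Module F V]
      [Primcodable V] [ComputableSpace F V],
      (¬ ∃ D : ℕ → Bool, Computable D ∧
        ∀ σ : AESentence, D σ.code = true ↔ σ.Holds (LStar F V)) ∧
      (¬ ∃ D : ℕ → Bool, Computable D ∧
        ∀ σ : AESentence, σ.k = 0 → (D σ.code = true ↔ σ.Holds (LStar F V))) := by
  refine ⟨?_, Pool.Agent.Results.MP_8d6ead_lc.AEUndecidable.result⟩
  obtain ⟨m, R, hWP⟩ := Pool.Agent.Y669.TA.WPU.word_problem_re
  let P : List (LTm (nv m) × LTm (nv m)) := hypEqs R (vt m (.inl 0)) (vt m (.inl 1))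
    (vt m (.inl 2)) (vt m (.inl 3)) (vt m (.inl 4)) (vt m (.inl 5)) (fun x => vt m (.inr x))
  have hsen : ∀ w, quasi P (wt w) (vt m (.inl 4)) = sen R w := fun w => rfl
  have key : ∀ W : ℕ → Prop, REPred W → ∃ t : ℕ → LTm (nv m),
      (Computable fun n => (t n).code) ∧
        ∀ (F : Type u) (V : Type v) [Field F] [Primcodable F] [AddCommGroup V] [Module F V]
          [Primcodable V] [ComputableSpace F V] (n : ℕ),
          (quasi P (t n) (vt m (.inl 4))).Holds (LStar F V) ↔ W n := by
    intro W hW
    obtain ⟨w, hw, h⟩ := hWP W hW
    refine ⟨fun n => wt (w n), comp_code_wt hw, fun F V _ _ _ _ _ _ n => ?_⟩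
    rw [hsen, holds_sen_iff, h]
  obtain ⟨W, hW, hco⟩ := Pool.Agent.Y669.TA.SysU.exists_re_not_co
  obtain ⟨t, ht, h1⟩ := key W hW
  refine ⟨nv m, P, vt m (.inl 4), key, ?_, ?_⟩
  · rintro ⟨D, hD, h⟩
    apply hco
    have h2 : Computable fun n => D (t n).code := hD.comp ht
    have h3 : (fun n => ¬ W n) = fun n => (!(D (t n).code)) = true := by
      funext n
      by_cases hn : W n
      · have := (h (t n)).1 (fun F V _ _ _ _ _ _ => (h1 F V n).2 hn)
        simp [hn, this]
      · have := (h (t n)).2 (fun F V _ _ _ _ _ _ h4 => hn ((h1 F V n).1 h4))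
        simp [hn, this]
    rw [h3]
    exact ComputablePred.to_re (ComputablePred.computable_iff.2
      ⟨_, Primrec.not.to_comp.comp h2, rfl⟩)
  · rintro F V _ _ _ _ _ _ ⟨E, hE, hEt⟩
    apply hco
    have h2 : REPred fun n => E (t n).code := Partrec.comp hE ht
    exact h2.of_eq fun n => (hEt (t n)).trans (not_congr (h1 F V n))

end Pool.Agent.Results.MP_8d6ead_lc.FixedPremises
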